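import Mathlib
import Pool.Agent.Helper21.NCH.Setup

set_option autoImplicit false

/-!
# The countable-support part of the box power of a convergent sequence is normal under CH

`BoxPower` is the set of all functions from the ordinal `ω₁` to `ω + 1`, with the box topology;
`X` is its subspace of functions of countable support (the support of `f` is the set of
coordinates where `f` is different from the limit point `⊤`).  We prove: under the continuum
hypothesis `X` is normal.

In fact every open cover of `X` is refined by a partition into clopen sets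
(`exists_locallyConstant`).

Proof.  Let `x j` (`j < ω₁`) enumerate `X`, and let `δ j` be an increasing sequence of countable
sets with `supp (x i) ⊆ δ j` for `i ≤ j`, covering `ω₁`; write `δ j` as an increasing union of
finite sets `A j n`.  For every `j` and `n` the tube of all `v` that agree with `x j` off `A j n`
is compact in the product topology, so that finitely many canonical neighbourhoods `Nb w (gc w)`
cover the coordinates in `A j n` of its points.  The boxes `Nb w g` at these points `w` are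
chosen with `g` equal to `gc w` on `A j n`, to a fixed function of `j` on the rest of `δ j`, and to
a rank function `G j n a` at the coordinates `a` outside `δ j`, where
`G j (max m (κ i n j)) a ≤ max (G i n a) (G j m a)` for `i ≤ j`.  Then the union of the boxes of
any countable set of indices `j` is closed (`Data.closed`), and the least index whose boxes contain
a given point gives the partition.
-/

open Set Topology

namespace Pool.Agent.Results.MP_ff2f0d_gt.NormalUnderCH

/-- All functions from a set `Λ` to `ω + 1`, where `ω + 1` is modelled by `ℕ∞` with its order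
topology: the natural numbers followed by the limit point `⊤`. -/
def BoxPower (Λ : Type*) := Λ → ℕ∞

/-- The box topology: it is generated by all products of open sets. -/
instance boxTopology (Λ : Type*) : TopologicalSpace (BoxPower Λ) :=
  TopologicalSpace.generateFrom
    {S | ∃ U : Λ → Set ℕ∞, (∀ a, IsOpen (U a)) ∧ S = {f | ∀ a, f a ∈ U a}}

/-- The support of `f`: the coordinates where `f` is not at the limit point. -/
def supp {Λ : Type*} (f : BoxPower Λ) : Set Λ := {a | f a ≠ ⊤}

/-- The subspace of the functions with countable support. -/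
abbrev X (Λ : Type*) := {f : BoxPower Λ // (supp f).Countable}

open Pool.Agent.Helper21.NCH

universe u v w

variable {Λ : Type u}

theorem isOpen_Nb (x : Λ → ℕ∞) (g : Λ → ℕ) : IsOpen (X := BoxPower Λ) (Nb x g) := by
  refine TopologicalSpace.isOpen_generateFrom_of_mem ⟨fun a => Vn (x a) (g a), fun a => ?_, rfl⟩
  change IsOpen (Vn (x a) (g a))
  by_cases ha : x a = ⊤
  · have : Vn (x a) (g a) = Ici (g a : ℕ∞) := by
      ext u
      exact ⟨fun h => h.2 ha, fun h => ⟨fun h' => absurd ha h', fun _ => h⟩⟩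
    rw [this, isOpen_iff_mem_nhds]
    intro u hu
    by_cases hu' : u = ⊤
    · rw [hu']
      exact Ici_mem_nhds (ENat.natCast_lt_top _)
    · rw [ENat.mem_nhds_iff hu']
      exact hu
  · have : Vn (x a) (g a) = {x a} := by
      ext u
      exact ⟨fun h => h.1 ha, fun h => ⟨fun _ => h, fun h' => absurd h' ha⟩⟩
    rw [this]
    exact ENat.isOpen_singleton ha

theorem self_mem_Nb (x : Λ → ℕ∞) (g : Λ → ℕ) : x ∈ Nb x g :=
  fun _ => ⟨fun _ => rfl, fun h => by rw [h]; exact le_top⟩

theorem Nb_anti (x : Λ → ℕ∞) (g g' : Λ → ℕ) (h : ∀ a, g a ≤ g' a) : Nb x g' ⊆ Nb x g :=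
  fun _ hy a => ⟨(hy a).1, fun ht => (Nat.cast_le.2 (h a)).trans ((hy a).2 ht)⟩

/-- The boxes `Nb x g` form a neighbourhood base at `x`. -/
theorem exists_Nb_subset (O : Set (BoxPower Λ)) (hO : IsOpen O) (x : BoxPower Λ) (hx : x ∈ O) :
    ∃ g : Λ → ℕ, Nb x g ⊆ O := by
  induction hO with
  | basic S hS =>
    obtain ⟨U, hU, rfl⟩ := hS
    have h1 : ∀ a, ∃ k : ℕ, x a = ⊤ → Ici (k : ℕ∞) ⊆ U a := by
      intro a
      by_cases ha : x a = ⊤
      · have h2 : U a ∈ 𝓝 (⊤ : ℕ∞) := ha ▸ (hU a).mem_nhds (hx a)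
        obtain ⟨l, hl, hl'⟩ := exists_Ioc_subset_of_mem_nhds h2 ⟨0, ENat.natCast_lt_top 0⟩
        obtain ⟨m, rfl⟩ := ENat.ne_top_iff_exists.1 hl.ne
        refine ⟨m + 1, fun _ u hu => hl' ⟨?_, le_top⟩⟩
        exact lt_of_lt_of_le (Nat.cast_lt.2 (Nat.lt_succ_self m)) hu
      · exact ⟨0, fun h => absurd h ha⟩
    choose g hg using h1
    refine ⟨g, fun y hy a => ?_⟩
    by_cases ha : x a = ⊤
    · exact hg a ha ((hy a).2 ha)
    · have := (hy a).1 ha
      rw [this]
      exact hx a
  | univ => exact ⟨0, subset_univ _⟩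
  | inter s t _ _ ihs iht =>
    obtain ⟨g, hg⟩ := ihs hx.1
    obtain ⟨g', hg'⟩ := iht hx.2
    refine ⟨fun a => max (g a) (g' a), fun y hy => ⟨hg ?_, hg' ?_⟩⟩
    · exact Nb_anti x _ _ (fun a => le_max_left _ _) hy
    · exact Nb_anti x _ _ (fun a => le_max_right _ _) hy
  | sUnion S _ ih =>
    obtain ⟨s, hs, hxs⟩ := hx
    obtain ⟨g, hg⟩ := ih s hs hxs
    exact ⟨g, hg.trans (subset_sUnion_of_mem hs)⟩

theorem isClosed_of_forall_Nb (W : Set (BoxPower Λ))
    (h : ∀ x, x ∉ W → ∃ g : Λ → ℕ, ∀ y ∈ Nb x g, y ∉ W) : IsClosed W := by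
  rw [← isOpen_compl_iff, isOpen_iff_mem_nhds]
  intro x hx
  obtain ⟨g, hg⟩ := h x hx
  exact Filter.mem_of_superset ((isOpen_Nb x g).mem_nhds (self_mem_Nb x g)) hg

theorem isClosed_Nb (x : Λ → ℕ∞) (g : Λ → ℕ) : IsClosed (X := BoxPower Λ) (Nb x g) := by
  refine isClosed_of_forall_Nb _ fun y hy => ?_
  refine ⟨fun a => (x a).toNat + 1, fun z hz hzx => hy fun a => ?_⟩
  by_cases hya : y a = ⊤
  · refine ⟨fun hxa => ?_, fun _ => by rw [hya]; exact le_top⟩
    have h1 := (hz a).2 hya
    rw [(hzx a).1 hxa, ← ENat.natCast_toNat hxa] at h1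
    have h2 := Nat.cast_le.1 h1
    simp only at h2
    omega
  · rw [← (hz a).1 hya]
    exact hzx a

/-- The core statement: if an ordered set with countable initial segments enumerates `Λ` and the
functions of countable support, then every open cover of `X Λ` is refined by a clopen
partition. -/
theorem exists_locallyConstant_of_enum {J : Type v} [LinearOrder J] [WellFoundedLT J]
    (hJ : ∀ j : J, (Iic j).Countable) (l : J → Λ) (hl : Function.Surjective l)
    (x : J → X Λ) (hx : Function.Surjective x) {ι : Type w} (U : ι → Set (X Λ))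
    (hU : ∀ i, IsOpen (U i)) (hcov : ∀ p, ∃ i, p ∈ U i) :
    ∃ f : X Λ → ι, IsLocallyConstant f ∧ ∀ p, p ∈ U (f p) := by
  classical
  -- canonical neighbourhoods
  have h1 : ∀ p : X Λ, ∃ i : ι, ∃ g : Λ → ℕ, ∀ q : X Λ, q.1 ∈ Nb p.1 g → q ∈ U i := by
    intro p
    obtain ⟨i, hi⟩ := hcov p
    obtain ⟨O, hO, hOU⟩ := isOpen_induced_iff.1 (hU i)
    have hpO : p.1 ∈ O := by
      have : p ∈ Subtype.val ⁻¹' O := by rw [hOU]; exact hi
      exact this
    obtain ⟨g, hg⟩ := exists_Nb_subset O hO p.1 hpO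
    refine ⟨i, g, fun q hq => ?_⟩
    rw [← hOU]
    exact hg hq
  choose ic gcX hgc using h1
  let gc : (Λ → ℕ∞) → Λ → ℕ := fun f => if hf : (supp f).Countable then gcX ⟨f, hf⟩ else 0
  have hgcX : ∀ (f : Λ → ℕ∞) (hf : (supp f).Countable), gc f = gcX ⟨f, hf⟩ := by
    intro f hf
    simp only [gc, dif_pos hf]
  obtain ⟨D, hDx, hDgc⟩ := exists_data hJ (fun j => (x j).1) (fun j => (x j).2) l hl gc
  -- enumeration of the centres
  have h2 : ∀ j : J, ∃ c : ℕ → ℕ × (Λ → ℕ∞),
      {q : ℕ × (Λ → ℕ∞) | q.2 ∈ D.U j q.1} = range c := by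
    intro j
    refine Set.Countable.exists_eq_range ?_ ?_
    · have : {q : ℕ × (Λ → ℕ∞) | q.2 ∈ D.U j q.1} =
          ⋃ n : ℕ, (fun w => (n, w)) '' (D.U j n : Set (Λ → ℕ∞)) := by
        ext ⟨n, w⟩
        simp only [mem_iUnion, mem_image, Prod.mk.injEq]
        constructor
        · intro h
          exact ⟨n, w, h, rfl, rfl⟩
        · rintro ⟨n', w', h, rfl, rfl⟩
          exact h
      rw [this]
      exact countable_iUnion fun n => ((Finset.finite_toSet _).image _).countable
    · obtain ⟨w, hw, -⟩ := D.mem_self j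
      exact ⟨(0, w), hw⟩
  choose c hc using h2
  let N : J → ℕ → Set (Λ → ℕ∞) := fun j k => Nb (c j k).2 (D.g j (c j k).1 (c j k).2)
  have hcU : ∀ j k, (c j k).2 ∈ D.U j (c j k).1 := by
    intro j k
    have : c j k ∈ {q : ℕ × (Λ → ℕ∞) | q.2 ∈ D.U j q.1} := by rw [hc]; exact mem_range_self k
    exact this
  have hW : ∀ (I : Set J) (h : Λ → ℕ∞), h ∈ D.W I ↔ ∃ j ∈ I, ∃ k, h ∈ N j k := by
    intro I h
    constructor
    · rintro ⟨j, hj, n, w, hw, hN⟩
      have : (n, w) ∈ {q : ℕ × (Λ → ℕ∞) | q.2 ∈ D.U j q.1} := hw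
      rw [hc] at this
      obtain ⟨k, hk⟩ := this
      refine ⟨j, hj, k, ?_⟩
      simp only [N, hk]
      exact hN
    · rintro ⟨j, hj, k, hN⟩
      exact ⟨j, hj, _, _, hcU j k, hN⟩
  have hWclosed : ∀ I : Set J, I.Countable → IsClosed (X := BoxPower Λ) (D.W I) :=
    fun I hI => isClosed_of_forall_Nb _ fun y hy => D.closed I hI y hy
  -- every point belongs to some box
  have hex : ∀ p : X Λ, ∃ j : J, ∃ k, p.1 ∈ N j k := by
    intro p
    obtain ⟨j, rfl⟩ := hx p
    obtain ⟨w, hw, hN⟩ := D.mem_self j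
    have h3 : D.x j ∈ D.W {j} := ⟨j, rfl, 0, w, hw, hN⟩
    obtain ⟨j', hj', k, hk⟩ := (hW _ _).1 h3
    refine ⟨j', k, ?_⟩
    rw [hDx] at hk
    exact hk
  -- the least index
  let jj : X Λ → J := fun p => wellFounded_lt.min {j | ∃ k, p.1 ∈ N j k} (hex p)
  have hjj : ∀ p, ∃ k, p.1 ∈ N (jj p) k := fun p =>
    wellFounded_lt.min_mem {j | ∃ k, p.1 ∈ N j k} (hex p)
  have hjj_min : ∀ p j, (∃ k, p.1 ∈ N j k) → jj p ≤ j := fun p j hj =>
    not_lt.1 (wellFounded_lt.not_lt_min {j | ∃ k, p.1 ∈ N j k} hj)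
  let kk : X Λ → ℕ := fun p => Nat.find (hjj p)
  have hkk : ∀ p, p.1 ∈ N (jj p) (kk p) := fun p => Nat.find_spec (hjj p)
  have hkk_min : ∀ p i, i < kk p → p.1 ∉ N (jj p) i := fun p i hi => Nat.find_min (hjj p) hi
  -- support of the centres
  have hcs : ∀ j k, (supp (Λ := Λ) (c j k).2).Countable := by
    intro j k
    refine (D.δ_count j).mono fun a ha => ?_
    exact D.dom_sub j _ _ (hcU j k) a ha
  refine ⟨fun p => ic ⟨(c (jj p) (kk p)).2, hcs _ _⟩, ?_, ?_⟩
  · rw [IsLocallyConstant.iff_exists_open]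
    intro p
    let O : Set (BoxPower Λ) := (N (jj p) (kk p) ∩ (⋂ i ∈ Finset.range (kk p), (N (jj p) i)ᶜ)) ∩
      (D.W (Iio (jj p)))ᶜ
    have hO : IsOpen O := by
      refine ((isOpen_Nb _ _).inter ?_).inter ?_
      · exact isOpen_biInter_finset fun i _ => (isClosed_Nb _ _).isOpen_compl
      · exact (hWclosed _ ((hJ (jj p)).mono Iio_subset_Iic_self)).isOpen_compl
    refine ⟨Subtype.val ⁻¹' O, hO.preimage continuous_subtype_val, ?_, ?_⟩
    · refine ⟨⟨hkk p, ?_⟩, ?_⟩
      · simp only [mem_iInter]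
        intro i hi
        exact hkk_min p i (Finset.mem_range.1 hi)
      · intro hWp
        obtain ⟨j, hj, k, hk⟩ := (hW _ _).1 hWp
        exact absurd (hjj_min p j ⟨k, hk⟩) (not_le.2 hj)
    · intro q hq
      obtain ⟨⟨hq1, hq2⟩, hq3⟩ := hq
      simp only [mem_iInter] at hq2
      have e1 : jj q = jj p := by
        refine le_antisymm (hjj_min q _ ⟨_, hq1⟩) ?_
        by_contra hlt
        push Not at hlt
        exact hq3 ((hW _ _).2 ⟨jj q, hlt, kk q, hkk q⟩)
      have e2 : kk q = kk p := by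
        have t1 := hkk q
        have t2 := hkk_min q
        rw [e1] at t1 t2
        refine le_antisymm ?_ ?_
        · by_contra hlt
          push Not at hlt
          exact t2 _ hlt hq1
        · by_contra hlt
          push Not at hlt
          exact hq2 _ (Finset.mem_range.2 hlt) t1
      simp only [e1, e2]
  · intro p
    refine hgc _ p ?_
    have t := hkk p
    refine Nb_anti _ _ _ (fun a => ?_) t
    rw [← hgcX _ (hcs (jj p) (kk p)), ← hDgc]
    exact D.gc_le_g _ _ _ (hcU _ _) a

/-- The ordinal `ω₁`, as the set of all countable ordinals. -/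
abbrev Omega1 : Type 1 := Iio (Ordinal.omega.{0} 1)

/-- Under the continuum hypothesis every open cover of `X` is refined by a clopen partition. -/
theorem exists_locallyConstant (hCH : Cardinal.continuum.{0} = Cardinal.aleph.{0} 1) {ι : Type w}
    (U : ι → Set (X Omega1)) (hU : ∀ i, IsOpen (U i)) (hcov : ∀ p, ∃ i, p ∈ U i) :
    ∃ f : X Omega1 → ι, IsLocallyConstant f ∧ ∀ p, p ∈ U (f p) := by
  have hCH1 : Cardinal.continuum.{1} = Cardinal.aleph.{1} 1 := by
    have := congrArg Cardinal.lift.{1} hCH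
    simpa using this
  have hcard : Cardinal.mk Omega1 = Cardinal.aleph.{1} 1 := by
    rw [Cardinal.mk_Iio_ordinal, Ordinal.card_omega]
    simp
  have hseg : ∀ j : Omega1, (Iic j).Countable := by
    intro j
    have h1 : (Iic (j : Ordinal.{0})).Countable := by
      rw [← Order.Iio_succ, ← Cardinal.le_aleph0_iff_set_countable, Cardinal.mk_Iio_ordinal]
      have h2 : Order.succ (j : Ordinal.{0}) < Ordinal.omega.{0} 1 :=
        (Cardinal.isSuccLimit_omega 1).succ_lt j.2
      rw [Cardinal.lt_omega_iff_card_lt, ← Cardinal.succ_aleph0, Order.lt_succ_iff] at h2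
      have h4 := Cardinal.lift_le.{1}.2 h2
      rwa [Cardinal.lift_aleph0] at h4
    have h3 : Iic j = Subtype.val ⁻¹' (Iic (j : Ordinal.{0})) := rfl
    rw [h3]
    exact h1.preimage Subtype.val_injective
  have hne : Nonempty Omega1 := ⟨⟨0, Ordinal.omega_pos 1⟩⟩
  have hX : Cardinal.mk (X Omega1) ≤ Cardinal.mk Omega1 := by
    rw [hcard, ← hCH1]
    refine card_le Omega1 ?_
    rw [hcard, ← hCH1]
  have hXne : Nonempty (X Omega1) := ⟨⟨fun _ => ⊤, by simp [supp]⟩⟩
  obtain ⟨φ⟩ := (Cardinal.le_def _ _).1 hX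
  exact exists_locallyConstant_of_enum hseg id Function.surjective_id (Function.invFun φ)
    (Function.invFun_surjective φ.injective) U hU hcov

/-- Under the continuum hypothesis the countable-support part of the box power
`□^{ω₁} (ω + 1)` is normal. -/
theorem result (hCH : Cardinal.continuum.{0} = Cardinal.aleph.{0} 1) :
    NormalSpace (X (Iio (Ordinal.omega.{0} 1))) := by
  refine ⟨fun s t hs ht hst => ?_⟩
  obtain ⟨f, hf, hfU⟩ := exists_locallyConstant hCH (fun b : Bool => if b then sᶜ else tᶜ)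
    (by
      intro b
      cases b
      · simpa using ht.isOpen_compl
      · simpa using hs.isOpen_compl)
    (by
      intro p
      by_cases hp : p ∈ s
      · exact ⟨false, by simpa using hst.notMem_of_mem_left hp⟩
      · exact ⟨true, by simpa using hp⟩)
  refine ⟨f ⁻¹' {false}, f ⁻¹' {true}, hf.isOpen_fiber _, hf.isOpen_fiber _, ?_, ?_, ?_⟩
  · intro p hp
    have h := hfU p
    by_contra hne
    have h1 : f p = true := by simpa using hne
    rw [h1] at h
    exact h hp
  · intro p hp
    have h := hfU p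
    by_contra hne
    have h1 : f p = false := by simpa using hne
    rw [h1] at h
    exact h hp
  · rw [Set.disjoint_left]
    intro p h1 h2
    simp only [mem_preimage, mem_singleton_iff] at h1 h2
    rw [h1] at h2
    exact absurd h2 (by decide)

end Pool.Agent.Results.MP_ff2f0d_gt.NormalUnderCH
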